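import Pool.Agent.R508.BT.Main
import Pool.Agent.R508.BT.SS
import Pool.Agent.R508.BT.CNTx
import Pool.Agent.R508.BT.MEAS
import Pool.Agent.R508.BT.REG
import Pool.Agent.R508.BT.WAIT
import Pool.Agent.R508.BT.TSC
import Pool.Agent.R508.BT.UPP
import Pool.Agent.R508.BT.LB
import Pool.Agent.R508.BT.CEN
import Pool.Agent.R508.BT.MZ
import Pool.Agent.R508.BT.CLIP
import Pool.Agent.R508.BT.GLUE
import Pool.Agent.R508.BT.WK
import Pool.Agent.R508.BT.LSC
import Pool.Agent.R508.BT.EXI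
import Pool.Agent.R508.BT.LIN
import Pool.Agent.R508.BT.T0
import Pool.Agent.R508.BT.N1
import Pool.Agent.R508.BT.LARGE
import Pool.Agent.R508.BT.VAR
import Pool.Agent.R508.BT.MRG
import Pool.Agent.R508.BT.TWO
import Pool.Agent.R508.BT.NM
import Pool.Agent.R508.BT.CHILD
import Pool.Agent.R508.BT.NUM
import Pool.Agent.R508.BT.LEFT
import Pool.Agent.R508.BT.BAL
import Pool.Agent.R508.BT.INF
import Pool.Agent.R508.BT.RA
import Pool.Agent.R508.BT.LAG
import Pool.Agent.R508.BT.SM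
import Pool.Agent.R508.BT.MOL
import Pool.Agent.R508.BT.W2
import Pool.Agent.R508.BT.AC
import Pool.Agent.R508.BT.QF
import Pool.Agent.R508.BT.EUL

/-!
# One-dimensional branched transport: every minimizer branches at time zero below `T_* = 1/4`
-/

open MeasureTheory Set
open scoped ENNReal

namespace Pool.Agent.Results.MP_c57125_an.BranchingAtZero

open Pool.Agent.R508.BT

theorem result (T : ℝ) (hT : 0 < T) (hT4 : T < 1 / 4) :
    -- minimizers exist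
    (∃ (mu : ℝ → Measure ℝ) (v : ℝ → ℝ → ℝ), Adm T mu v ∧ enE T mu v = EE T) ∧
    -- every minimizer branches at time zero
    (∀ (mu : ℝ → Measure ℝ) (v : ℝ → ℝ → ℝ), Adm T mu v → enE T mu v = EE T →
      ¬ ∃ δ : ℝ, 0 < δ ∧ ∀ᵐ t ∂(volume.restrict (Ioo 0 δ)), ∃ x : ℝ, mu t = Measure.dirac x) ∧
    -- waiting is never optimal
    (∀ ε : ℝ, 0 < ε → ε < T → EE T < EE (T - ε) + ENNReal.ofReal ε) := by
  have hCNT : S_CNT := t_CNTx
  have hREG : S_REG := t_REG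
  have hMEAS : S_MEAS := t_MEAS
  have hWAIT : S_WAIT := t_WAIT
  have hTSC : S_TSC := t_TSC
  have hCLIP : S_CLIP := t_CLIP hREG hCNT
  have hGLUE : S_GLUE := t_GLUE hREG hMEAS hCLIP
  have hUPP : S_UPP := t_UPP hGLUE hWAIT hTSC
  have hMZ : S_MZ := t_MZ t_CEN
  have hEXI : S_EXI := t_EXI t_WK t_LSC hUPP hCNT hMEAS hREG
  have hLIN : S_LIN := t_LIN hCNT hREG
  have hN1 : S_N1 := t_N1 hMZ hREG hCNT
  have hLARGE : S_LARGE := t_LARGE hEXI hUPP hWAIT hLIN hN1 hCNT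
  have hVAR : S_VAR := t_VAR hCNT hREG hWAIT
  have hMRG : S_MRG := t_MRG hCNT hREG
  have hTWO : S_TWO := t_TWO hCNT
  have hNM : S_NM := t_NM hCNT hMEAS hREG hMZ
  have hCHILD : S_CHILD := t_CHILD hCNT
  have hS : S_S := t_S hCNT hREG hUPP hMZ hGLUE hEXI hLIN t_T0 hN1 hVAR hMRG hTWO hNM hCHILD
  have hVF : VF Main.ev := Main.vf hWAIT hTSC hUPP t_LB hGLUE hLARGE hS
  have hINF : S_INF := t_INF t_NUM t_LEFT t_BAL
  have hRA : S_RA := t_RA t_NUM t_LEFT t_BAL hINF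
  have hEUL : S_EUL := t_EUL (t_W2 t_SM t_MOL) (t_AC t_WK) t_QF
  exact Main.eulerian hREG hWAIT hUPP hEXI hN1 hRA hVF (t_LAG hREG) hEUL hT hT4

end Pool.Agent.Results.MP_c57125_an.BranchingAtZero
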